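import Mathlib
import Pool.Agent.Helper99.BQ.Main

/-!
MP_986e36_gt, Q1: negative answer. There is a compact simply connected Riemannian manifold which
is isometric to a quotient of (every) infinite-dimensional real Hilbert space by a group of
isometries and which is not isometric to any biquotient.
-/

open scoped Manifold ContDiff
open Bundle Helper99.BQ

namespace Pool.Agent.Results.MP_986e36_gt.NotBiquotient

theorem result.{u, v} :
    ∃ (R : Type) (_ : EMetricSpace R) (_ : ChartedSpace (EE 3) R)
      (_ : IsManifold 𝓘(ℝ, EE 3) ∞ R) (g : RMetric 3 R),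
      IsDistOf g ∧ CompactSpace R ∧ SimplyConnectedSpace R ∧
      (∀ (H : Type v) [NormedAddCommGroup H] [InnerProductSpace ℝ H] [CompleteSpace H],
        ¬ FiniteDimensional ℝ H → ∃ (Γ : Subgroup (H ≃ᵢ H)) (p : H → R), IsQuotientBy Γ p) ∧
      ¬ IsBiquotient.{u} R :=
  counterexample.{u, v}

end Pool.Agent.Results.MP_986e36_gt.NotBiquotient
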